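import Pool.Agent.Helper37.DG.Stmts

set_option autoImplicit false

/-!
Module SWL of the project DG (MP_e500b6_co): Mertens for the primes `1 mod 4`.
-/

namespace Pool.Agent.Helper37.DG

open Finset
open scoped Classical
open Pool.Agent.Helper17.SO (PP LL)

theorem swl_filter (y z : ℕ) :
    P1 y z = (PP y z).filter (fun p : ℕ => (p : ZMod 4) = 1) := by
  unfold P1
  apply Finset.filter_congr
  intro p _
  have h : ((p : ZMod 4) = 1) ↔ p % 4 = 1 := by
    have h1 : ((p : ZMod 4) = ((1 : ℕ) : ZMod 4)) ↔ p ≡ 1 [MOD 4] :=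
      ZMod.natCast_eq_natCast_iff p 1 4
    rw [Nat.cast_one] at h1
    rw [h1]
    rfl
  exact h.symm

theorem st_SWL (h1 : Pool.Agent.Helper17.SO.ST_PAP) : ST_SWL := by
  obtain ⟨C, hC, h⟩ := h1 4 1 (by norm_num) isUnit_one
  refine ⟨Real.exp (-C) * Real.sqrt (Real.log 2), ?_, ?_⟩
  · have h2 : 0 < Real.log 2 := Real.log_pos (by norm_num)
    positivity
  intro y z hy hyz
  have hz : 2 ≤ z := le_trans hy hyz
  have h2 : 0 < Real.log 2 := Real.log_pos (by norm_num)
  have hyR : (2 : ℝ) ≤ (y : ℝ) := by exact_mod_cast hy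
  have hzR : (2 : ℝ) ≤ (z : ℝ) := by exact_mod_cast hz
  have hly : Real.log 2 ≤ Real.log y := Real.log_le_log (by norm_num) hyR
  have hlz : Real.log 2 ≤ Real.log z := Real.log_le_log (by norm_num) hzR
  have hly0 : 0 < Real.log y := lt_of_lt_of_le h2 hly
  have hlz0 : 0 < Real.log z := lt_of_lt_of_le h2 hlz
  have hb := h y z hy hyz
  rw [← swl_filter] at hb
  have htot : ((Nat.totient 4 : ℕ) : ℝ) = 2 := by
    have : Nat.totient 4 = 2 := by decide
    rw [this]; norm_num
  rw [htot] at hb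
  have hb2 := (abs_le.mp hb).2
  have hs : ∑ p ∈ P1 y z, 1 / (p : ℝ) ≤ C + LL y z / 2 := by linarith
  have ha : 0 < Real.log z / Real.log y := div_pos hlz0 hly0
  have hexp : Real.exp (LL y z / 2) = Real.sqrt (Real.log z / Real.log y) := by
    unfold LL
    rw [Real.sqrt_eq_rpow, Real.rpow_def_of_pos ha]
    congr 1
    ring
  have hsw : Real.exp (-C) * (1 / Real.sqrt (Real.log z / Real.log y)) ≤ sw (P1 y z) := by
    unfold sw
    rw [← hexp, one_div, ← Real.exp_neg, ← Real.exp_add]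
    apply Real.exp_le_exp.mpr
    linarith
  refine le_trans ?_ hsw
  rw [Real.sqrt_div hlz0.le, one_div, inv_div, mul_div_assoc]
  apply mul_le_mul_of_nonneg_left _ (Real.exp_pos _).le
  apply div_le_div_of_nonneg_right (Real.sqrt_le_sqrt hly) (Real.sqrt_nonneg _)

end Pool.Agent.Helper37.DG
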